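import Mathlib
import Pool.Agent.W701.PermD

/-!
# Permuted expansions do not give bases (MP_514f39_an, Q1 and Q2)

In the Hilbert space `ℓ²(ℕ)`, over `ℝ` and over `ℂ`, there is a minimal sequence such that every
vector is the sum of a rearranged series in it, with unique coefficients (property (U)), although
no permutation of the sequence is a Schauder basis.

The sequence consists of finite blocks `x_i = e_i + (2n+1)^{-1/2} ∑_{j ∈ B_n} e_j`, `i ∈ B_n`, with
`|B_n| = 2n+1`.  Inside a block the terms of the expansion of a vector can be arranged greedily so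
that the partial sums stay bounded, but no fixed order does this for all vectors at once.
-/

set_option autoImplicit false

namespace Pool.Agent.Results.MP_514f39_an.NoPermutedBasis

open Filter Topology

/-- `(x_n)` is a Schauder basis: every vector has exactly one norm convergent expansion. -/
def IsSchauderBasis (𝕜 : Type*) [RCLike 𝕜] {E : Type*} [NormedAddCommGroup E] [NormedSpace 𝕜 E]
    (x : ℕ → E) : Prop :=
  ∀ z : E, ∃! α : ℕ → 𝕜, Tendsto (fun m => ∑ i ∈ Finset.range m, α i • x i) atTop (𝓝 z)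

/-- `(x_n)` is minimal: no term lies in the closed linear span of the others. -/
def IsMinimal (𝕜 : Type*) [RCLike 𝕜] {E : Type*} [NormedAddCommGroup E] [NormedSpace 𝕜 E]
    (x : ℕ → E) : Prop :=
  ∀ m : ℕ, x m ∉ closure (Submodule.span 𝕜 (x '' {n | n ≠ m}) : Set E)

/-- `z = ∑_i α_{σ(i)} x_{σ(i)}`, the series converging in norm. -/
def SumsTo (𝕜 : Type*) [RCLike 𝕜] {E : Type*} [NormedAddCommGroup E] [NormedSpace 𝕜 E]
    (x : ℕ → E) (α : ℕ → 𝕜) (σ : Equiv.Perm ℕ) (z : E) : Prop :=
  Tendsto (fun m => ∑ i ∈ Finset.range m, α (σ i) • x (σ i)) atTop (𝓝 z)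

/-- Property (U): every `z` is the sum of a rearranged series in `(x_n)`, the rearrangement may
depend on `z`, and the scalar sequence is unique. -/
def PropertyU (𝕜 : Type*) [RCLike 𝕜] {E : Type*} [NormedAddCommGroup E] [NormedSpace 𝕜 E]
    (x : ℕ → E) : Prop :=
  ∀ z : E, ∃ α : ℕ → 𝕜, (∃ σ : Equiv.Perm ℕ, SumsTo 𝕜 x α σ z) ∧
    ∀ β : ℕ → 𝕜, (∃ π : Equiv.Perm ℕ, SumsTo 𝕜 x β π z) → β = α

/-- Over `ℝ` and over `ℂ`, the (separable) Hilbert space `ℓ²` contains a minimal sequence with
property (U) no permutation of which is a Schauder basis. -/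
theorem result (𝕜 : Type) [RCLike 𝕜] :
    TopologicalSpace.SeparableSpace (lp (fun _ : ℕ => 𝕜) 2) ∧
    ∃ x : ℕ → lp (fun _ : ℕ => 𝕜) 2, IsMinimal 𝕜 x ∧ PropertyU 𝕜 x ∧
      ∀ τ : Equiv.Perm ℕ, ¬ IsSchauderBasis 𝕜 (fun n => x (τ n)) := by
  let e : HilbertBasis ℕ 𝕜 (lp (fun _ : ℕ => 𝕜) 2) :=
    HilbertBasis.ofRepr (LinearIsometryEquiv.refl 𝕜 _)
  have he : Orthonormal 𝕜 e := e.orthonormal
  refine ⟨?_, W701.Perm.xx 𝕜 e, ?_, ?_, ?_⟩
  · have h1 : TopologicalSpace.IsSeparable (Set.range (e : ℕ → lp (fun _ : ℕ => 𝕜) 2)) :=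
      (Set.countable_range _).isSeparable
    have h2 := (h1.span (R := 𝕜)).closure
    have h3 : closure ((Submodule.span 𝕜 (Set.range e) : Submodule 𝕜 _) :
        Set (lp (fun _ : ℕ => 𝕜) 2)) = Set.univ := by
      have := e.dense_span
      rw [← Submodule.topologicalClosure_coe, this]
      rfl
    rw [h3] at h2
    exact TopologicalSpace.isSeparable_univ_iff.1 h2
  · intro m hm
    have h1 : ∀ z ∈ closure ((Submodule.span 𝕜 (W701.Perm.xx 𝕜 e '' {n | n ≠ m}) :
        Submodule 𝕜 _) : Set (lp (fun _ : ℕ => 𝕜) 2)),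
        inner 𝕜 (W701.Perm.ff 𝕜 e m) z = (0 : 𝕜) := by
      intro z hz
      have hcl : IsClosed {z : lp (fun _ : ℕ => 𝕜) 2 |
          inner 𝕜 (W701.Perm.ff 𝕜 e m) z = (0 : 𝕜)} :=
        isClosed_eq (Continuous.inner continuous_const continuous_id) continuous_const
      refine closure_minimal ?_ hcl hz
      intro w hw
      induction hw using Submodule.span_induction with
      | mem w hw =>
        obtain ⟨n, hn, rfl⟩ := hw
        show inner 𝕜 (W701.Perm.ff 𝕜 e m) (W701.Perm.xx 𝕜 e n) = (0 : 𝕜)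
        rw [W701.Perm.biorth he, if_neg (Ne.symm hn)]
      | zero => simp
      | add u v _ _ hu hv =>
        simp only [Set.mem_setOf_eq] at hu hv ⊢
        rw [inner_add_right, hu, hv, add_zero]
      | smul a u _ hu =>
        simp only [Set.mem_setOf_eq] at hu ⊢
        rw [inner_smul_right, hu, mul_zero]
    have h2 := h1 _ hm
    rw [W701.Perm.biorth he, if_pos rfl] at h2
    exact one_ne_zero h2
  · intro z
    refine ⟨fun i => inner 𝕜 (W701.Perm.ff 𝕜 e i) z, W701.Perm.expansion e z, ?_⟩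
    rintro β ⟨π, hπ⟩
    funext j
    have := W701.Perm.coef_unique e he π (fun i => β (π i)) z hπ (π.symm j)
    simpa using this
  · intro τ h
    refine W701.Perm.not_basis e τ (fun z => ?_)
    obtain ⟨α, hα, _⟩ := h z
    exact ⟨α, hα⟩

end Pool.Agent.Results.MP_514f39_an.NoPermutedBasis
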